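import Pool.Agent.N929.AP.Stm
import Pool.Agent.N832.AP.CN
import Pool.Agent.N710.AP.TSP
import Pool.Agent.N744.AP.Cnt
import Pool.Agent.N342.AP.PT
import Pool.Agent.N505.AP.LOW
import Pool.Agent.N929.EG.MomT
import Pool.Agent.N929.EG.Two
import Pool.Agent.N929.AC.Prim

/-!
# Polyominoes: regularity to all orders, analytic continuation
-/

set_option autoImplicit false
set_option linter.unusedVariables false

namespace Pool.Agent.N929.AP

open Finset Filter Topology Pool.Agent.N929.EG Pool.Agent.N789.Kl Pool.Agent.N929.AC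
open scoped Classical

noncomputable section

/-- the system of moves -/
theorem sysP : ∃ Y : TS (Finset Cell) Cell, (∀ n, Y.K n = Tm n) ∧ Y.s = 1 ∧
    Gr Y lam (fun n => 2 * Real.log n ^ 2) := by
  obtain ⟨Y, hK, hS, hB, hs⟩ := Pool.Agent.N710.AP.tsp Pool.Agent.N832.AP.cn
  refine ⟨Y, hK, hs, one_le_lam, phi_log 2 le_rfl, fun n m hn hm => ?_, ?_⟩
  · rw [hK, ← t_eq]
    refine (t_le_lam m).trans ?_
    have h1 : (1 : ℝ) ≤ Real.exp (2 * Real.log n ^ 2) := Real.one_le_exp (by positivity)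
    exact le_mul_of_one_le_right (pow_nonneg lam_pos.le m) h1
  · obtain ⟨M, θ, C', h1, h2, h3, h4, h5⟩ :=
      Pool.Agent.N342.AP.pt (Pool.Agent.N744.AP.cnt Pool.Agent.N832.AP.cn)
    refine ⟨M, θ, C', h1, h2, h3, h4, fun n => ?_⟩
    have h6 := h5 n
    unfold bad
    simp only [hK, hS, hB]
    exact h6

/-- regularity to all orders -/
theorem orders : ∀ r : ℕ, 1 ≤ r → ∃ C : ℝ, 0 < C ∧ ∀ n : ℕ, 2 ≤ n →
    |∑ i ∈ range (r + 1), (-1 : ℝ) ^ i * (r.choose i : ℝ) *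
      Real.log ((t (n + i) : ℝ) / lam ^ (n + i))| ≤ C * (Real.log n / Real.sqrt n) ^ r := by
  obtain ⟨Y, hK, hs, G⟩ := sysP
  obtain ⟨K, hK0, hlow⟩ := Pool.Agent.N505.AP.low
  intro r hr
  obtain ⟨C, hC, h⟩ := cntT Y G ⟨K / 2, by positivity, fun n hn => by
    rw [hK, ← t_eq]
    have h1 := hlow n hn
    have e : K / 2 * (2 * Real.log n ^ 2) = K * Real.log n ^ 2 := by ring
    rw [e, mul_comm]
    exact h1⟩ r hr
  refine ⟨C * (Real.sqrt 2) ^ r, by positivity, fun n hn => ?_⟩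
  have h1 := h n hn
  rw [hs] at h1
  simp only [hK, one_mul, ← t_eq] at h1
  rw [sqrt_phi (by norm_num) n, mul_pow] at h1
  rw [mul_assoc]
  exact h1

/-- analytic continuation -/
theorem omino_ac : ∃ δ : ℝ, 0 < δ ∧
    (IsOpen (Om δ lam 1) ∧ IsPreconnected (Om δ lam 1) ∧ (∀ z : ℂ, lam * ‖z‖ < 1 → z ∈ Om δ lam 1) ∧
      ∀ z : ℂ, lam * ‖z‖ = 1 → z ≠ ((1 / lam : ℝ) : ℂ) → z ∈ Om δ lam 1) ∧
    ∃ (f : ℂ → ℂ) (C : ℝ), Ext δ lam 1 (fun n => (t n : ℝ)) f ∧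
      ∀ z ∈ Om δ lam 1, z ≠ 0 → cs 1 z < 1 →
        Summable (fun n => (t n : ℝ) * xx δ lam 1 z ^ n) ∧
        ‖f z‖ ≤ C + ∑' n, (t n : ℝ) * xx δ lam 1 z ^ n := by
  obtain ⟨Y, hK, hs, G⟩ := sysP
  obtain ⟨δ, hδ, h⟩ := s_ac _ _ Y lam _ G
  rw [hs] at h
  obtain ⟨h1, h2, h3, -⟩ := s_omg δ lam 1 hδ one_le_lam le_rfl
  refine ⟨δ, hδ, ⟨h1, h2, h3, fun z hz hz2 => (mem_Om hδ hz fun h4 => hz2 ?_).1⟩, ?_⟩
  · have hn : ‖z‖ = 1 / lam := by
      have := lam_pos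
      field_simp
      linarith
    rw [pow_one, pow_one, hn] at h4
    exact h4
  · obtain ⟨C, hC, h'⟩ := h 1 0 zero_le_one
    obtain ⟨f, f1, f2, f3⟩ := h' (fun _ => 1) (fun n w hw => by norm_num)
      (fun n w hw q hq => rfl)
    have e : ∀ n, aa Y (fun _ => 1) n = (t n : ℝ) := by
      intro n
      unfold aa
      rw [sum_const, nsmul_eq_mul, mul_one, hK, ← t_eq]
    simp only [e] at f2 f3
    exact ⟨f, C, ⟨f1, f2⟩, f3⟩

end

end Pool.Agent.N929.AP
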