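import Pool.Agent.N929.EG.Stm
import Pool.Agent.N789.Kl.Growth

/-!
# Polyominoes as a system of local moves (project AP): statements

The local move fills a hole of one cell, all eight cells around it being cells of the polyomino.
-/

set_option autoImplicit false
set_option linter.unusedVariables false

namespace Pool.Agent.N929.AP

open Finset Filter Topology Pool.Agent.N929.EG Pool.Agent.N789.Kl
open scoped Classical

noncomputable section

/-- the eight cells around `v` -/
def ring (v : Cell) : Finset Cell :=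
  ((Icc (v.1 - 1) (v.1 + 1)) ×ˢ (Icc (v.2 - 1) (v.2 + 1))).erase v

/-- the holes of one cell, surrounded by eight cells of `P` -/
def SS (P : Finset Cell) : Finset Cell :=
  (P.image (fun c => (c.1 - 1, c.2))).filter (fun v => v ∉ P ∧ ring v ⊆ P)

/-- the cells of `P` surrounded by eight cells of `P` -/
def BB (P : Finset Cell) : Finset Cell := P.filter (fun v => ring v ⊆ P)

/-- the block of 25 cells with index `u`; the blocks partition the plane -/
def blk (u : Cell) : Finset Cell :=
  (Icc (5 * u.1 - 2) (5 * u.1 + 2)) ×ˢ (Icc (5 * u.2 - 2) (5 * u.2 + 2))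

/-- a cell inside the block, never the origin -/
def ctr (u : Cell) : Cell := (5 * u.1 + 1, 5 * u.2 + 1)

/-- the indices of the blocks which are hit by `P` -/
def hit (P : Finset Cell) : Finset Cell := P.image (fun c => ((c.1 + 2) / 5, (c.2 + 2) / 5))

/-- `P` with the blocks with indices in `T` filled -/
def fillB (P T : Finset Cell) : Finset Cell := P ∪ T.biUnion blk

/-- `P` with the blocks with indices in `T` filled up to one cell -/
def fillS (P T : Finset Cell) : Finset Cell := (P ∪ T.biUnion blk) \ T.image ctr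

/-- CN: connectedness -/
def S_CN : Prop :=
  (∀ (P : Finset Cell) (v : Cell), Conn P → ring v ⊆ P → Conn (insert v P)) ∧
  (∀ (P : Finset Cell) (v : Cell), Conn P → ring v ⊆ P → Conn (P.erase v)) ∧
  (∀ P T : Finset Cell, Conn P → T ⊆ hit P → Conn (fillB P T)) ∧
  ∀ P T : Finset Cell, Conn P → T ⊆ hit P → Conn (fillS P T)

/-- TSP: the system of local moves -/
def S_TSP : Prop :=
  ∃ Y : TS (Finset Cell) Cell, (∀ n, Y.K n = Tm n) ∧ (∀ P, Y.S P = SS P) ∧ (∀ P, Y.B P = BB P) ∧
    Y.s = 1

/-- CNT: the counting inequality of the pattern theorem -/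
def S_CNT : Prop :=
  ∀ X : Finset Cell → Finset Cell, X = SS ∨ X = BB → ∀ M n t : ℕ, 1 ≤ M →
    ∑ P ∈ (A0 n).filter (fun P => M * (X P).card ≤ n), (hit P).card.choose t ≤
      2 ^ (n / M + 74 * t) * ∑ m ∈ range (n + 25 * t + 1), a m

/-- PT: the pattern theorem -/
def S_PT : Prop :=
  ∃ (M : ℕ) (θ C' : ℝ), 1 ≤ M ∧ 0 < θ ∧ θ < 1 ∧ 0 ≤ C' ∧ ∀ n : ℕ,
    (((Tm n).filter (fun w => M * (SS w).card ≤ n ∨ M * (BB w).card ≤ n)).card : ℝ) ≤
      C' * (θ * lam) ^ n

/-- LOW: the lower bound for the number of polyominoes -/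
def S_LOW : Prop :=
  ∃ K : ℝ, 0 ≤ K ∧ ∀ n : ℕ, 2 ≤ n → lam ^ n ≤ (t n : ℝ) * Real.exp (K * Real.log n ^ 2)

end

end Pool.Agent.N929.AP
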